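import Pool.Agent.H69.Ora.Main

namespace Pool.Agent.Results.MP_7be565_lc.AlternationBound

open Pool.Agent.H69.Ora

/-- For every `d ≥ 1` there is an oracle `B ∈ PSPACE` with `P B = NP B` such that every language in
`P B` is decided in polynomial time with `log log n / d + O(1)` alternating quantifiers.  Hence the
intersection `HH` of all classes `P A` with `P A = NP A` lies in this subclass of `PSPACE`, and if
every `B ∈ PSPACE` with `P B = NP B` is `PSPACE`-complete, then for every `d ≥ 1` all languages in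
`PSPACE` are decided in polynomial time with `log log n / d + O(1)` alternating quantifiers. -/
theorem result (d : ℕ) (hd : 1 ≤ d) :
    (∃ B ∈ PSPACE, P B = NP B ∧
      ∀ L ∈ P B, ∃ e, L ∈ Alt (fun n => Nat.log 2 (Nat.log 2 n) / d + e)) ∧
    (∀ L ∈ HH, ∃ e, L ∈ Alt (fun n => Nat.log 2 (Nat.log 2 n) / d + e)) ∧
    (∀ e, Alt (fun n => Nat.log 2 (Nat.log 2 n) / d + e) ⊆ PSPACE) ∧
    ((∀ B ∈ PSPACE, P B = NP B → PSPACE ⊆ P B) →
      ∀ L, L ∈ PSPACE ↔ ∃ e, L ∈ Alt (fun n => Nat.log 2 (Nat.log 2 n) / d + e)) :=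
  upper d hd

end Pool.Agent.Results.MP_7be565_lc.AlternationBound
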