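import Pool.Agent.H69.Ora.Main

namespace Pool.Agent.Results.MP_7be565_lc.CofinalOracles

open Pool.Agent.H69.Ora

/-- There is a sequence of oracles `B n` in `PSPACE` with `P (B n) = NP (B n)`, each computable
in polynomial time from the preceding one, such that for every oracle `A` with `P A = NP A` all
but finitely many `B n` belong to `P A`.  Hence the intersection of `P A` over all oracles `A`
with `P A = NP A` is the intersection of the decreasing classes `P (B n)`; every `A ∈ PSPACE` with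
`P A = NP A` is `PSPACE`-complete if and only if all `B n` are, if and only if
`PSPACE ⊆ P A` for every oracle `A` with `P A = NP A`. -/
theorem result : ∃ B : ℕ → Lang,
    (∀ n, B n ∈ PSPACE ∧ P (B n) = NP (B n) ∧ B (n + 1) ∈ P (B n)) ∧
    (∀ A : Lang, P A = NP A → ∃ n0, ∀ n, n0 ≤ n → B n ∈ P A) ∧
    (∀ L : Lang, (∀ A : Lang, P A = NP A → L ∈ P A) ↔ ∀ n, L ∈ P (B n)) ∧
    ((∀ A ∈ PSPACE, P A = NP A → PSPACE ⊆ P A) ↔ ∀ n, PSPACE ⊆ P (B n)) ∧
    ((∀ A ∈ PSPACE, P A = NP A → PSPACE ⊆ P A) ↔ ∀ A : Lang, P A = NP A → PSPACE ⊆ P A) :=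
  chain

end Pool.Agent.Results.MP_7be565_lc.CofinalOracles
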