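import Pool.Agent.H69.Ora.Main

namespace Pool.Agent.Results.MP_7be565_lc.HierarchyInH

open Pool.Agent.H69.Ora

/-- The intersection `HH` of all classes `P A` with `P A = NP A` contains a language which is hard
for the polynomial-time hierarchy `PH`; consequently `HH = PH` if and only if the hierarchy
collapses to one of its levels. -/
theorem result : (∃ L ∈ HH, PH ⊆ P L) ∧ (HH = PH ↔ ∃ k, PH = SigmaP k) :=
  lower

end Pool.Agent.Results.MP_7be565_lc.HierarchyInH
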